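import Pool.Agent.W810.SYN.Stm

/-!
Part UN of project SYN.
-/

set_option autoImplicit false

namespace Pool.Agent.W3.SYN.UN

open MeasureTheory AddCircle Filter Topology
open Pool.Agent.Results.MP_535799_an.NonSidon Pool.Agent.W810.SYN

noncomputable section

lemma continuous_sd : Continuous sd := by
  unfold sd
  exact (continuous_const.sub (fourier 1).continuous).norm

lemma sd_nonneg (x : Circ) : 0 ≤ sd x := norm_nonneg _

lemma meas_E (c : ℝ) : MeasurableSet {x : Circ | c ≤ sd x} :=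
  (isClosed_le continuous_const continuous_sd).measurableSet

lemma meas_A (c : ℝ) : MeasurableSet {x : Circ | sd x < c} :=
  (isOpen_lt continuous_sd continuous_const).measurableSet

lemma sum_odd (K : ℕ) : 1 + ∑ M ∈ Finset.Icc 1 K, (2 * (M : ℝ) + 1) = ((K : ℝ) + 1) ^ 2 := by
  induction K with
  | zero => simp
  | succ K ih =>
    rw [Finset.sum_Icc_succ_top (by omega), ← add_assoc, ih]
    push_cast
    ring

/-- layer cake -/
lemma layer (N : ℕ) : ∀ s : ℝ, 1 / ((N : ℝ) + 1) ≤ s →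
    1 / s ^ 2 ≤ 1 + ∑ M ∈ Finset.Icc 1 N,
      (2 * (M : ℝ) + 1) * (if s < 1 / (M : ℝ) then 1 else 0) := by
  induction N with
  | zero =>
    intro s hs
    have hs1 : (1 : ℝ) ≤ s := by simpa using hs
    have h2 : (1 : ℝ) ≤ s ^ 2 := one_le_pow₀ hs1
    simp only [Finset.Icc_eq_empty (by omega : ¬ (1 ≤ 0)), Finset.sum_empty, add_zero]
    rw [div_le_one (by positivity)]
    exact h2
  | succ N ih =>
    intro s hs
    rcases le_or_gt (1 / ((N : ℝ) + 1)) s with h | h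
    · refine (ih s h).trans ?_
      rw [Finset.sum_Icc_succ_top (by omega)]
      have : (0 : ℝ) ≤ (2 * ((N + 1 : ℕ) : ℝ) + 1) *
          (if s < 1 / (((N + 1 : ℕ) : ℝ)) then 1 else 0) := by
        split_ifs <;> positivity
      linarith
    · have hpos : 0 < s := lt_of_lt_of_le (by positivity) hs
      have hall : ∀ M ∈ Finset.Icc 1 (N + 1),
          (2 * (M : ℝ) + 1) * (if s < 1 / (M : ℝ) then (1 : ℝ) else 0) = 2 * (M : ℝ) + 1 := by
        intro M hM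
        rw [Finset.mem_Icc] at hM
        have hM0 : (0 : ℝ) < M := by exact_mod_cast hM.1
        have hM1 : (M : ℝ) ≤ (N : ℝ) + 1 := by exact_mod_cast hM.2
        have : s < 1 / (M : ℝ) := lt_of_lt_of_le h (one_div_le_one_div_of_le hM0 hM1)
        rw [if_pos this, mul_one]
      rw [Finset.sum_congr rfl hall, sum_odd]
      have h3 : 1 / s ≤ ((N + 1 : ℕ) : ℝ) + 1 := by
        rw [div_le_iff₀ hpos]
        rw [div_le_iff₀ (by positivity)] at hs
        linarith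
      calc 1 / s ^ 2 = (1 / s) ^ 2 := by rw [one_div_pow]
        _ ≤ _ := pow_le_pow_left₀ (by positivity) h3 2

lemma integrable_ind (c : ℝ) :
    Integrable (fun x : Circ => if sd x < c then (1 : ℝ) else 0) mu := by
  have h : (fun x : Circ => if sd x < c then (1 : ℝ) else 0) =
      Set.indicator {x : Circ | sd x < c} (fun _ => (1 : ℝ)) := by
    funext x
    simp [Set.indicator]
  rw [h]
  exact (integrable_const (1 : ℝ)).indicator (meas_A c)

lemma integral_ind (c : ℝ) :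
    ∫ x : Circ, (if sd x < c then (1 : ℝ) else 0) ∂mu = mu.real {x | sd x < c} := by
  have h : (fun x : Circ => if sd x < c then (1 : ℝ) else 0) =
      Set.indicator {x : Circ | sd x < c} (fun _ => (1 : ℝ)) := by
    funext x
    simp [Set.indicator]
  rw [h, integral_indicator (meas_A c), setIntegral_const, smul_eq_mul, mul_one]

/-- `1 / sd²` is integrable on the set -/
lemma integrableOn_inv (N : ℕ) :
    IntegrableOn (fun x => 1 / sd x ^ 2) {x : Circ | 1 / ((N : ℝ) + 1) ≤ sd x} mu := by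
  refine Measure.integrableOn_of_bounded (M := ((N : ℝ) + 1) ^ 2) (measure_ne_top _ _) ?_ ?_
  · exact ((measurable_const.div (continuous_sd.measurable.pow_const 2))).aestronglyMeasurable
  · rw [ae_restrict_iff' (meas_E _)]
    refine ae_of_all _ (fun x hx => ?_)
    have hx' : 1 / ((N : ℝ) + 1) ≤ sd x := hx
    have hpos : 0 < sd x := lt_of_lt_of_le (by positivity) hx'
    have h3 : 1 / sd x ≤ (N : ℝ) + 1 := by
      rw [div_le_iff₀ hpos]
      rw [div_le_iff₀ (by positivity)] at hx'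
      linarith
    rw [Real.norm_of_nonneg (by positivity)]
    calc 1 / sd x ^ 2 = (1 / sd x) ^ 2 := by rw [one_div_pow]
      _ ≤ _ := pow_le_pow_left₀ (by positivity) h3 2

lemma int_sq (h : S_MEAS) (N : ℕ) :
    ∫ x in {x | 1 / ((N : ℝ) + 1) ≤ sd x}, 1 / sd x ^ 2 ∂mu ≤ 3 * ((N : ℝ) + 1) := by
  let F : Circ → ℝ := fun x => 1 + ∑ M ∈ Finset.Icc 1 N,
      (2 * (M : ℝ) + 1) * (if sd x < 1 / (M : ℝ) then 1 else 0)
  have hF2 : Integrable (fun x : Circ => ∑ M ∈ Finset.Icc 1 N,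
      (2 * (M : ℝ) + 1) * (if sd x < 1 / (M : ℝ) then (1 : ℝ) else 0)) mu :=
    integrable_finset_sum _ (fun M _ => (integrable_ind _).const_mul _)
  have hFi : Integrable F mu := (integrable_const (1 : ℝ)).add hF2
  have h1 : ∫ x in {x | 1 / ((N : ℝ) + 1) ≤ sd x}, 1 / sd x ^ 2 ∂mu ≤
      ∫ x in {x | 1 / ((N : ℝ) + 1) ≤ sd x}, F x ∂mu :=
    setIntegral_mono_on (integrableOn_inv N) hFi.integrableOn (meas_E _)
      (fun x hx => layer N (sd x) hx)
  have h2 : ∫ x in {x | 1 / ((N : ℝ) + 1) ≤ sd x}, F x ∂mu ≤ ∫ x, F x ∂mu := by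
    refine setIntegral_le_integral hFi (ae_of_all _ (fun x => ?_))
    show 0 ≤ F x
    refine add_nonneg zero_le_one (Finset.sum_nonneg (fun M _ => ?_))
    split_ifs <;> positivity
  have h3 : ∫ x, F x ∂mu = 1 + ∑ M ∈ Finset.Icc 1 N,
      (2 * (M : ℝ) + 1) * mu.real {x | sd x < 1 / (M : ℝ)} := by
    have e1 : ∫ x, F x ∂mu = ∫ _x : Circ, (1 : ℝ) ∂mu + ∫ x : Circ, (∑ M ∈ Finset.Icc 1 N,
        (2 * (M : ℝ) + 1) * (if sd x < 1 / (M : ℝ) then (1 : ℝ) else 0)) ∂mu :=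
      integral_add (integrable_const (1 : ℝ)) hF2
    rw [e1, integral_finset_sum _ (fun M _ => (integrable_ind _).const_mul _)]
    congr 1
    · simp
    · refine Finset.sum_congr rfl (fun M _ => ?_)
      rw [integral_const_mul, integral_ind]
  have h4 : ∀ M ∈ Finset.Icc 1 N,
      (2 * (M : ℝ) + 1) * mu.real {x | sd x < 1 / (M : ℝ)} ≤ 3 := by
    intro M hM
    rw [Finset.mem_Icc] at hM
    have hM0 : (1 : ℝ) ≤ M := by exact_mod_cast hM.1
    have h5 := h (1 / (M : ℝ)) (by positivity)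
    calc (2 * (M : ℝ) + 1) * mu.real {x | sd x < 1 / (M : ℝ)}
        ≤ (2 * (M : ℝ) + 1) * (1 / (M : ℝ)) := mul_le_mul_of_nonneg_left h5 (by positivity)
      _ ≤ 3 := by
        rw [mul_one_div, div_le_iff₀ (by positivity)]
        linarith
  have h6 := Finset.sum_le_sum h4
  rw [Finset.sum_const, Nat.card_Icc, nsmul_eq_mul] at h6
  have h7 : ((N + 1 - 1 : ℕ) : ℝ) = N := by simp
  rw [h7] at h6
  rw [h3] at h2
  linarith

lemma norm_Gc (N : ℕ) (n : ℤ) : ‖Gc N n‖ ≤ 1 / ((N : ℝ) + 1) := by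
  unfold Gc lam
  rw [← sub_div, norm_div, ← Int.cast_sub]
  have hN : ‖((N : ℂ) + 1)‖ = (N : ℝ) + 1 := by
    have : ((N : ℂ) + 1) = ((N + 1 : ℕ) : ℂ) := by push_cast; ring
    rw [this, Complex.norm_natCast]
    push_cast
    ring
  rw [hN, Complex.norm_intCast]
  refine div_le_div_of_nonneg_right ?_ (by positivity)
  have h1 : |max 0 ((N : ℤ) + 1 - |n|) - max 0 ((N : ℤ) + 1 - |n + 1|)| ≤ 1 := by
    rcases abs_cases n with ⟨h, _⟩ | ⟨h, _⟩ <;> rcases abs_cases (n + 1) with ⟨h', _⟩ | ⟨h', _⟩ <;>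
      rw [h, h', abs_le] <;> constructor <;>
      rcases max_cases 0 ((N : ℤ) + 1 - n) with ⟨a, _⟩ | ⟨a, _⟩ <;>
      rcases max_cases 0 ((N : ℤ) + 1 - (n + 1)) with ⟨b, _⟩ | ⟨b, _⟩ <;>
      rcases max_cases 0 ((N : ℤ) + 1 - -n) with ⟨c, _⟩ | ⟨c, _⟩ <;>
      rcases max_cases 0 ((N : ℤ) + 1 - -(n + 1)) with ⟨d, _⟩ | ⟨d, _⟩ <;>
      omega
  exact_mod_cast h1

lemma norm_coeff_le (f : L1) (n : ℤ) : ‖coeff f n‖ ≤ ‖f‖ := by
  unfold coeff fourierCoeff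
  refine (norm_integral_le_integral_norm _).trans ?_
  rw [L1.norm_eq_integral_norm]
  refine le_of_eq ?_
  refine integral_congr_ae (ae_of_all _ (fun x => ?_))
  simp [norm_smul]

lemma finite_coeff (g : L1)
    (hg : g ∈ Submodule.span ℂ (Set.range (fun n : ℤ => (fourierLp 1 n : L1)))) :
    ∃ F : Finset ℤ, ∀ n, n ∉ F → coeff g n = 0 := by
  classical
  induction hg using Submodule.span_induction with
  | mem x hx =>
    obtain ⟨m, rfl⟩ := hx
    refine ⟨{m}, fun n hn => ?_⟩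
    simp only
    rw [coeff_fourierLp, if_neg (by simpa using hn)]
  | zero => exact ⟨∅, fun n _ => coeff_zero n⟩
  | add x y _ _ hx hy =>
    obtain ⟨F, hF⟩ := hx
    obtain ⟨F', hF'⟩ := hy
    refine ⟨F ∪ F', fun n hn => ?_⟩
    rw [Finset.mem_union, not_or] at hn
    rw [coeff_add, hF n hn.1, hF' n hn.2, add_zero]
  | smul a x _ hx =>
    obtain ⟨F, hF⟩ := hx
    exact ⟨F, fun n hn => by rw [coeff_smul, hF n hn, mul_zero]⟩

lemma exists_approx (f : L1) (ε : ℝ) (hε : 0 < ε) : ∃ (g : L1) (F : Finset ℤ),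
    ‖f - g‖ < ε ∧ ∀ n, n ∉ F → coeff g n = 0 := by
  have h : f ∈ (Submodule.span ℂ
      (Set.range (fun n : ℤ => (fourierLp 1 n : L1)))).topologicalClosure := by
    have := span_fourierLp_closure_eq_top (T := 2 * Real.pi) (p := 1) (by norm_num)
    rw [this]
    trivial
  rw [← SetLike.mem_coe, Submodule.topologicalClosure_coe, Metric.mem_closure_iff] at h
  obtain ⟨g, hg, hd⟩ := h ε hε
  obtain ⟨F, hF⟩ := finite_coeff g hg
  exact ⟨g, F, by rwa [dist_eq_norm] at hd, hF⟩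

/-- the square mean of `uN` -/
lemma sq_mean (f : L1) (N : ℕ) (g : L1) (F : Finset ℤ) (ε : ℝ) (hε : 0 < ε)
    (hfg : ‖f - g‖ < ε) (hF : ∀ n, n ∉ F → coeff g n = 0) :
    ((N : ℝ) + 1) * ∫ x, ‖uN f N x‖ ^ 2 ∂mu ≤ 2 * (F.card * ‖g‖ ^ 2) / ((N : ℝ) + 1) + 4 * ε ^ 2 := by
  unfold uN
  rw [parseval_poly]
  have hN : (0 : ℝ) < (N : ℝ) + 1 := by positivity
  have h1 : ∀ n ∈ Finset.Icc (-(N : ℤ) - 1) N, ‖Gc N n * coeff f n‖ ^ 2 ≤
      (1 / ((N : ℝ) + 1)) ^ 2 * (2 * ‖coeff g n‖ ^ 2 + 2 * ε ^ 2) := by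
    intro n _
    rw [norm_mul, mul_pow]
    have h2 : ‖coeff f n‖ ≤ ‖coeff g n‖ + ε := by
      have h3 : coeff f n = coeff g n + coeff (f - g) n := by rw [coeff_sub]; ring
      rw [h3]
      refine (norm_add_le _ _).trans ?_
      have := (norm_coeff_le (f - g) n).trans hfg.le
      linarith
    have h4 : ‖coeff f n‖ ^ 2 ≤ 2 * ‖coeff g n‖ ^ 2 + 2 * ε ^ 2 := by
      have h5 : ‖coeff f n‖ ^ 2 ≤ (‖coeff g n‖ + ε) ^ 2 :=
        pow_le_pow_left₀ (norm_nonneg _) h2 2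
      nlinarith [sq_nonneg (‖coeff g n‖ - ε)]
    exact mul_le_mul (pow_le_pow_left₀ (norm_nonneg _) (norm_Gc N n) 2) h4 (by positivity)
      (by positivity)
  have h2 := Finset.sum_le_sum h1
  have h3 : ∑ n ∈ Finset.Icc (-(N : ℤ) - 1) N, ‖coeff g n‖ ^ 2 ≤ F.card * ‖g‖ ^ 2 := by
    classical
    have e1 : ∑ n ∈ Finset.Icc (-(N : ℤ) - 1) N, ‖coeff g n‖ ^ 2 ≤
        ∑ n ∈ F, ‖coeff g n‖ ^ 2 := by
      have e2 : ∑ n ∈ Finset.Icc (-(N : ℤ) - 1) N ∩ F, ‖coeff g n‖ ^ 2 =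
          ∑ n ∈ Finset.Icc (-(N : ℤ) - 1) N, ‖coeff g n‖ ^ 2 := by
        refine Finset.sum_subset Finset.inter_subset_left (fun n hn hn' => ?_)
        have : n ∉ F := fun h => hn' (Finset.mem_inter.mpr ⟨hn, h⟩)
        rw [hF n this]
        simp
      rw [← e2]
      exact Finset.sum_le_sum_of_subset_of_nonneg Finset.inter_subset_right
        (fun _ _ _ => by positivity)
    refine e1.trans ?_
    refine (Finset.sum_le_card_nsmul F _ (‖g‖ ^ 2) (fun n _ =>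
      pow_le_pow_left₀ (norm_nonneg _) (norm_coeff_le g n) 2)).trans ?_
    rw [nsmul_eq_mul]
  have hcard : ((Finset.Icc (-(N : ℤ) - 1) N).card : ℝ) = 2 * ((N : ℝ) + 1) := by
    rw [Int.card_Icc]
    have : ((N : ℤ) + 1 - (-(N : ℤ) - 1)).toNat = 2 * (N + 1) := by omega
    rw [this]
    push_cast
    ring
  rw [← Finset.mul_sum, Finset.sum_add_distrib, ← Finset.mul_sum, Finset.sum_const, nsmul_eq_mul,
    hcard] at h2
  calc ((N : ℝ) + 1) * ∑ n ∈ Finset.Icc (-(N : ℤ) - 1) N, ‖Gc N n * coeff f n‖ ^ 2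
      ≤ ((N : ℝ) + 1) * ((1 / ((N : ℝ) + 1)) ^ 2 *
          (2 * (F.card * ‖g‖ ^ 2) + 2 * ((N : ℝ) + 1) * (2 * ε ^ 2))) := by
        refine mul_le_mul_of_nonneg_left (h2.trans ?_) hN.le
        refine mul_le_mul_of_nonneg_left ?_ (by positivity)
        linarith
    _ = 2 * (F.card * ‖g‖ ^ 2) / ((N : ℝ) + 1) + 4 * ε ^ 2 := by
        field_simp
        ring

lemma integrableOn_V (f : L1) (N : ℕ) :
    IntegrableOn (fun x => ‖uN f N x‖ / sd x) {x : Circ | 1 / ((N : ℝ) + 1) ≤ sd x} mu := by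
  have hc : Continuous (fun x => ‖uN f N x‖) := (uN f N).continuous.norm
  refine Measure.integrableOn_of_bounded (M := ‖uN f N‖ * ((N : ℝ) + 1)) (measure_ne_top _ _) ?_ ?_
  · exact (hc.measurable.div continuous_sd.measurable).aestronglyMeasurable
  · rw [ae_restrict_iff' (meas_E _)]
    refine ae_of_all _ (fun x hx => ?_)
    have hx' : 1 / ((N : ℝ) + 1) ≤ sd x := hx
    have hpos : 0 < sd x := lt_of_lt_of_le (by positivity) hx'
    have h3 : 1 / sd x ≤ (N : ℝ) + 1 := by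
      rw [div_le_iff₀ hpos]
      rw [div_le_iff₀ (by positivity)] at hx'
      linarith
    rw [Real.norm_of_nonneg (by positivity), div_eq_mul_one_div]
    exact mul_le_mul ((uN f N).norm_coe_le_norm x) h3 (by positivity) (norm_nonneg _)

lemma V_le (h : S_MEAS) (f : L1) (N : ℕ) (κ : ℝ) (hκ : 0 < κ) :
    ∫ x in {x | 1 / ((N : ℝ) + 1) ≤ sd x}, ‖uN f N x‖ / sd x ∂mu ≤
      κ / 2 * (((N : ℝ) + 1) * ∫ x, ‖uN f N x‖ ^ 2 ∂mu) + 3 / (2 * κ) := by
  have hN : (0 : ℝ) < (N : ℝ) + 1 := by positivity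
  have hc : Continuous (fun x => ‖uN f N x‖ ^ 2) := (uN f N).continuous.norm.pow 2
  have hi : Integrable (fun x => ‖uN f N x‖ ^ 2) mu := integrable_of_cont _ hc
  have h1 : ∫ x in {x | 1 / ((N : ℝ) + 1) ≤ sd x}, ‖uN f N x‖ / sd x ∂mu ≤
      ∫ x in {x | 1 / ((N : ℝ) + 1) ≤ sd x}, (κ / 2 * ((N : ℝ) + 1) * ‖uN f N x‖ ^ 2 +
        1 / (2 * κ * ((N : ℝ) + 1)) * (1 / sd x ^ 2)) ∂mu := by
    refine setIntegral_mono_on (integrableOn_V f N) ?_ (meas_E _) (fun x hx => ?_)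
    · exact (hi.integrableOn.const_mul _).add ((integrableOn_inv N).const_mul _)
    · have hx' : 1 / ((N : ℝ) + 1) ≤ sd x := hx
      have hpos : 0 < sd x := lt_of_lt_of_le (by positivity) hx'
      have key : 0 ≤ (κ * ((N : ℝ) + 1) * ‖uN f N x‖ - 1 / sd x) ^ 2 := sq_nonneg _
      have e : κ / 2 * ((N : ℝ) + 1) * ‖uN f N x‖ ^ 2 +
          1 / (2 * κ * ((N : ℝ) + 1)) * (1 / sd x ^ 2) - ‖uN f N x‖ / sd x =
          (κ * ((N : ℝ) + 1) * ‖uN f N x‖ - 1 / sd x) ^ 2 / (2 * κ * ((N : ℝ) + 1)) := by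
        field_simp
        ring
      have : 0 ≤ (κ * ((N : ℝ) + 1) * ‖uN f N x‖ - 1 / sd x) ^ 2 / (2 * κ * ((N : ℝ) + 1)) := by
        positivity
      linarith
  have h2 : ∫ x in {x | 1 / ((N : ℝ) + 1) ≤ sd x}, (κ / 2 * ((N : ℝ) + 1) * ‖uN f N x‖ ^ 2 +
        1 / (2 * κ * ((N : ℝ) + 1)) * (1 / sd x ^ 2)) ∂mu =
      κ / 2 * ((N : ℝ) + 1) * ∫ x in {x | 1 / ((N : ℝ) + 1) ≤ sd x}, ‖uN f N x‖ ^ 2 ∂mu +
        1 / (2 * κ * ((N : ℝ) + 1)) *
          ∫ x in {x | 1 / ((N : ℝ) + 1) ≤ sd x}, 1 / sd x ^ 2 ∂mu := by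
    rw [integral_add (hi.integrableOn.const_mul _) ((integrableOn_inv N).const_mul _),
      integral_const_mul, integral_const_mul]
  have h3 : ∫ x in {x | 1 / ((N : ℝ) + 1) ≤ sd x}, ‖uN f N x‖ ^ 2 ∂mu ≤
      ∫ x, ‖uN f N x‖ ^ 2 ∂mu :=
    setIntegral_le_integral hi (ae_of_all _ (fun x => by positivity))
  have h4 := int_sq h N
  rw [h2] at h1
  have h5 : κ / 2 * ((N : ℝ) + 1) * ∫ x in {x | 1 / ((N : ℝ) + 1) ≤ sd x}, ‖uN f N x‖ ^ 2 ∂mu ≤
      κ / 2 * ((N : ℝ) + 1) * ∫ x, ‖uN f N x‖ ^ 2 ∂mu :=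
    mul_le_mul_of_nonneg_left h3 (by positivity)
  have h6 : 1 / (2 * κ * ((N : ℝ) + 1)) *
      ∫ x in {x | 1 / ((N : ℝ) + 1) ≤ sd x}, 1 / sd x ^ 2 ∂mu ≤
      1 / (2 * κ * ((N : ℝ) + 1)) * (3 * ((N : ℝ) + 1)) :=
    mul_le_mul_of_nonneg_left h4 (by positivity)
  have h7 : 1 / (2 * κ * ((N : ℝ) + 1)) * (3 * ((N : ℝ) + 1)) = 3 / (2 * κ) := by
    field_simp
  rw [h7] at h6
  linarith

theorem main (h : S_MEAS) : S_UN := by
  intro f
  rw [Metric.tendsto_atTop]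
  intro δ hδ
  set ε : ℝ := δ / 8 with hεd
  have hε : 0 < ε := by positivity
  obtain ⟨g, F, hfg, hF⟩ := exists_approx f ε hε
  obtain ⟨N₀, hN₀⟩ := exists_nat_gt ((F.card * ‖g‖ ^ 2) / ε ^ 2)
  refine ⟨N₀, fun N hN => ?_⟩
  have hN' : (F.card * ‖g‖ ^ 2) / ε ^ 2 < (N : ℝ) + 1 := by
    have : (N₀ : ℝ) ≤ N := by exact_mod_cast hN
    linarith
  have hpos : (0 : ℝ) < (N : ℝ) + 1 := by positivity
  have h0 : 0 ≤ ∫ x in {x | 1 / ((N : ℝ) + 1) ≤ sd x}, ‖uN f N x‖ / sd x ∂mu :=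
    setIntegral_nonneg (meas_E _) (fun x _ => div_nonneg (norm_nonneg _) (sd_nonneg x))
  rw [dist_zero_right, Real.norm_of_nonneg h0]
  have h1 := V_le h f N (1 / ε) (by positivity)
  have h2 := sq_mean f N g F ε hε hfg hF
  have h3 : (F.card * ‖g‖ ^ 2) / ((N : ℝ) + 1) ≤ ε ^ 2 := by
    rw [div_le_iff₀ hpos]
    rw [div_lt_iff₀ (by positivity)] at hN'
    linarith
  have h4 : 2 * (F.card * ‖g‖ ^ 2) / ((N : ℝ) + 1) ≤ 2 * ε ^ 2 := by
    rw [mul_div_assoc]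
    linarith
  have h5 : 1 / ε / 2 * (((N : ℝ) + 1) * ∫ x, ‖uN f N x‖ ^ 2 ∂mu) ≤ 1 / ε / 2 * (6 * ε ^ 2) :=
    mul_le_mul_of_nonneg_left (by linarith) (by positivity)
  have h6 : 1 / ε / 2 * (6 * ε ^ 2) = 3 * ε := by
    field_simp
    ring
  have h7 : 3 / (2 * (1 / ε)) = 3 / 2 * ε := by
    field_simp
  rw [h6] at h5
  rw [h7] at h1
  have : δ = 8 * ε := by rw [hεd]; ring
  linarith

end

end Pool.Agent.W3.SYN.UN
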